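import Pool.Agent.H560.E2.Stm

/-!
# Task NSQ of helper560: sifted values with a square factor are rare (helper289)
-/

set_option autoImplicit false

namespace Pool.Agent.H289.E2

open Polynomial Finset
open scoped Classical
open Pool.Agent.H985.Par (Sft)
open Pool.Agent.H694.Typ (Mn Irn mem_Mn mem_Irn card_Mn coprime_of_ne)
open Pool.Agent.H560.E2

theorem geo_up {q : ℕ} (hq : 2 ≤ q) (D : ℕ) : ∑ s ∈ range (D + 1), q ^ s ≤ 2 * q ^ D := by
  induction D with
  | zero => simp
  | succ D ih =>
    rw [sum_range_succ]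
    have h1 : 2 * q ^ D ≤ q ^ (D + 1) := by
      rw [pow_succ, mul_comm]
      exact Nat.mul_le_mul_left _ hq
    omega

theorem geo_down {q : ℕ} (hq : 2 ≤ q) (N m : ℕ) :
    ∀ D : ℕ, m ≤ D → D ≤ N → ∑ s ∈ Icc (m + 1) D, q ^ (N - s) + q ^ (N - D) ≤ q ^ (N - m) := by
  intro D hD
  induction D, hD using Nat.le_induction with
  | base =>
    intro _
    rw [Finset.Icc_eq_empty (by omega), sum_empty, zero_add]
  | succ D hD ih =>
    intro hN
    rw [sum_Icc_succ_top (by omega)]
    have h1 := ih (by omega)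
    have h2 : 2 * q ^ (N - (D + 1)) ≤ q ^ (N - D) := by
      have : N - D = (N - (D + 1)) + 1 := by omega
      rw [this, pow_succ, mul_comm]
      exact Nat.mul_le_mul_left _ hq
    omega

section

variable {K : Type} [Field K] [Fintype K]

/-- a residue class modulo a monic polynomial -/
theorem class_card {N : ℕ} {A : K[X]} (hA : A.Monic) (S : Finset K[X]) (hS : S ⊆ Mn K N)
    (h : ∀ g ∈ S, ∀ g' ∈ S, A ∣ g - g') : S.card ≤ Fintype.card K ^ (N - A.natDegree) := by
  have hmod : ∀ g ∈ S, ∀ g' ∈ S, g %ₘ A = g' %ₘ A := by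
    intro g hg g' hg'
    have h1 := (modByMonic_eq_zero_iff_dvd hA).2 (h g hg g' hg')
    rw [sub_modByMonic, sub_eq_zero] at h1
    exact h1
  have hinj : Set.InjOn (fun g : K[X] => g /ₘ A) (S : Set K[X]) := by
    intro g hg g' hg' hgg
    have h1 := modByMonic_add_div g A
    have h2 := modByMonic_add_div g' A
    have h3 : g /ₘ A = g' /ₘ A := hgg
    rw [← h1, ← h2, hmod g hg g' hg', h3]
  rcases le_or_gt A.natDegree N with hN | hN
  · rw [← card_Mn]
    refine card_le_card_of_injOn (fun g => g /ₘ A) ?_ hinj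
    intro g hg
    have hg' := mem_Mn.1 (hS hg)
    rw [Finset.mem_coe, mem_Mn]
    refine ⟨?_, ?_⟩
    · have hdeg : A.degree ≤ g.degree := by
        rw [degree_eq_natDegree hA.ne_zero, degree_eq_natDegree hg'.1.ne_zero, hg'.2]
        exact_mod_cast hN
      rw [Monic, leadingCoeff_divByMonic_of_monic hA hdeg]
      exact hg'.1
    · rw [natDegree_divByMonic _ hA, hg'.2]
  · have h0 : ∀ g ∈ S, g /ₘ A = 0 := by
      intro g hg
      have hg' := mem_Mn.1 (hS hg)
      rw [divByMonic_eq_zero_iff hA, degree_eq_natDegree hA.ne_zero,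
        degree_eq_natDegree hg'.1.ne_zero, hg'.2]
      exact_mod_cast hN
    have h1 : S.card ≤ 1 := by
      rw [card_le_one]
      intro g hg g' hg'
      exact hinj hg hg' (by
        show g /ₘ A = g' /ₘ A
        rw [h0 g hg, h0 g' hg'])
    have h2 : N - A.natDegree = 0 := by omega
    rw [h2, pow_zero]
    exact h1

theorem mul_add_mem {N j : ℕ} {g p a : K[X]} (hg : g ∈ Mn K N) (hp : p.Monic)
    (hj : p.natDegree = j) (ha : a.natDegree < N + j) : p * g + a ∈ Mn K (N + j) := by
  rw [mem_Mn] at hg ⊢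
  have h0 : (p * g).Monic := hp.mul hg.1
  have h2 : (p * g).natDegree = N + j := by
    rw [hp.natDegree_mul hg.1, hg.2, hj, add_comm]
  have h1 : a.degree < (p * g).degree := by
    rw [degree_eq_natDegree h0.ne_zero, h2]
    exact (degree_le_natDegree).trans_lt (by exact_mod_cast ha)
  exact ⟨h0.add_of_left h1, by rw [natDegree_add_eq_left_of_degree_lt h1, h2]⟩

/-- one shift -/
theorem one_shift {N j m : ℕ} {p a : K[X]} (ha : a.natDegree < N + j) (hm : 2 * m + j ≤ N)
    (hp : p ∈ Irn K j) (hpa : ¬ p ∣ a) :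
    ((Mn K N).filter (fun g => Sft m (p * g + a) ∧ ¬ Squarefree (p * g + a))).card ≤
      3 * Fintype.card K ^ (N - m) := by
  have hq : 2 ≤ Fintype.card K := Fintype.one_lt_card
  rw [mem_Irn] at hp
  obtain ⟨hp1, hp2, hp3⟩ := hp
  have hsub : (Mn K N).filter (fun g => Sft m (p * g + a) ∧ ¬ Squarefree (p * g + a)) ⊆
      (Icc (m + 1) ((N + j) / 2)).biUnion (fun s => ((Irn K s).filter (fun P => P ≠ p)).biUnion
        (fun P => (Mn K N).filter (fun g => P ^ 2 ∣ p * g + a))) := by
    intro g hg
    rw [mem_filter] at hg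
    obtain ⟨hg1, hg2, hg3⟩ := hg
    have hF := mul_add_mem hg1 hp1 hp2 ha
    have hF' := mem_Mn.1 hF
    have hF0 : p * g + a ≠ 0 := hF'.1.ne_zero
    rw [squarefree_iff_irreducible_sq_not_dvd_of_ne_zero hF0] at hg3
    push Not at hg3
    obtain ⟨P, hP, hPd⟩ := hg3
    have hP0 : P ≠ 0 := hP.ne_zero
    have hass : Associated (normalize P) P := normalize_associated P
    have hN : (normalize P).Monic := monic_normalize hP0
    have hNi : Irreducible (normalize P) := hass.irreducible_iff.2 hP
    have hNd : normalize P ^ 2 ∣ p * g + a := by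
      rw [pow_two]
      exact (Associated.mul_mul hass hass).dvd.trans hPd
    have hNd1 : normalize P ∣ p * g + a :=
      (Dvd.intro_left _ (pow_two (normalize P)).symm).trans hNd
    have h1 := hg2 _ hN hNi hNd1
    have h2 : 2 * (normalize P).natDegree ≤ N + j := by
      have := natDegree_le_of_dvd hNd hF0
      rw [natDegree_pow, hF'.2] at this
      exact this
    rw [mem_biUnion]
    refine ⟨(normalize P).natDegree, mem_Icc.2 ⟨by omega, by omega⟩, ?_⟩
    rw [mem_biUnion]
    refine ⟨normalize P, mem_filter.2 ⟨mem_Irn.2 ⟨hN, rfl, hNi⟩, ?_⟩, mem_filter.2 ⟨hg1, hNd⟩⟩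
    intro h
    rw [h] at hNd1
    exact hpa ((dvd_add_right (dvd_mul_right p g)).1 hNd1)
  have h1 : ((Mn K N).filter (fun g => Sft m (p * g + a) ∧ ¬ Squarefree (p * g + a))).card ≤
      ∑ s ∈ Icc (m + 1) ((N + j) / 2), Fintype.card K ^ s * Fintype.card K ^ (N - 2 * s) := by
    refine (card_le_card hsub).trans (card_biUnion_le.trans (sum_le_sum fun s _ => ?_))
    refine card_biUnion_le.trans ?_
    have h2 : ∀ P ∈ (Irn K s).filter (fun P => P ≠ p),
        ((Mn K N).filter (fun g => P ^ 2 ∣ p * g + a)).card ≤ Fintype.card K ^ (N - 2 * s) := by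
      intro P hP
      rw [mem_filter, mem_Irn] at hP
      obtain ⟨⟨hP1, hP2, hP3⟩, hP4⟩ := hP
      have h3 := class_card (N := N) (hP1.pow 2) ((Mn K N).filter (fun g => P ^ 2 ∣ p * g + a))
        (filter_subset _ _) (by
          intro g hg g' hg'
          rw [mem_filter] at hg hg'
          have h4 : P ^ 2 ∣ p * (g - g') := by
            have := dvd_sub hg.2 hg'.2
            have e : p * g + a - (p * g' + a) = p * (g - g') := by ring
            rwa [e] at this
          have h5 : IsCoprime P p := by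
            rw [Irreducible.coprime_iff_not_dvd hP3]
            intro h6
            exact hP4 (eq_of_monic_of_associated hP1 hp1
              ((hP3.associated_of_dvd hp3 h6)))
          exact (h5.pow_left (m := 2)).dvd_of_dvd_mul_left h4)
      rw [natDegree_pow, hP2] at h3
      exact h3
    refine (sum_le_sum h2).trans ?_
    rw [sum_const, smul_eq_mul]
    apply Nat.mul_le_mul_right
    calc ((Irn K s).filter (fun P => P ≠ p)).card ≤ (Irn K s).card := card_filter_le _ _
      _ ≤ (Mn K s).card := card_le_card (by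
          intro P hP
          rw [mem_Irn] at hP
          exact mem_Mn.2 ⟨hP.1, hP.2.1⟩)
      _ = _ := card_Mn s
  refine h1.trans ?_
  obtain ⟨D, hD⟩ : ∃ D, D = (N + j) / 2 := ⟨_, rfl⟩
  rw [← hD]
  have hDm : D ≤ N - m := by omega
  have h2 : ∀ s ∈ Icc (m + 1) D, Fintype.card K ^ s * Fintype.card K ^ (N - 2 * s) ≤
      Fintype.card K ^ (N - s) + Fintype.card K ^ s := by
    intro s _
    rw [← pow_add]
    rcases le_or_gt (2 * s) N with h | h
    · have : s + (N - 2 * s) = N - s := by omega
      rw [this]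
      exact Nat.le_add_right _ _
    · have : s + (N - 2 * s) = s := by omega
      rw [this]
      exact Nat.le_add_left _ _
  refine (sum_le_sum h2).trans ?_
  rw [sum_add_distrib]
  have h3 : ∑ s ∈ Icc (m + 1) D, Fintype.card K ^ (N - s) ≤ Fintype.card K ^ (N - m) := by
    rcases le_or_gt m D with h | h
    · have := geo_down hq N m D h (by omega)
      omega
    · rw [Finset.Icc_eq_empty (by omega), sum_empty]
      exact Nat.zero_le _
  have h4 : ∑ s ∈ Icc (m + 1) D, Fintype.card K ^ s ≤ 2 * Fintype.card K ^ (N - m) := by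
    calc ∑ s ∈ Icc (m + 1) D, Fintype.card K ^ s ≤ ∑ s ∈ range (D + 1), Fintype.card K ^ s := by
          apply sum_le_sum_of_subset
          intro s hs
          rw [mem_Icc] at hs
          rw [mem_range]
          omega
      _ ≤ 2 * Fintype.card K ^ D := geo_up hq D
      _ ≤ _ := Nat.mul_le_mul_left _ (Nat.pow_le_pow_right (by omega) hDm)
  omega

end

theorem nsqP : S_nsqP := by
  intro K _ _ k N j m α p hα hm hp hpa
  have hsub : (Mn K N).filter (fun g => ∃ i, Sft m (p * g + α i) ∧
        ¬ Squarefree (p * g + α i)) ⊆ (univ : Finset (Fin k)).biUnion (fun i =>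
          (Mn K N).filter (fun g => Sft m (p * g + α i) ∧ ¬ Squarefree (p * g + α i))) := by
    intro g hg
    rw [mem_filter] at hg
    obtain ⟨hg1, i, hi⟩ := hg
    rw [mem_biUnion]
    exact ⟨i, mem_univ _, mem_filter.2 ⟨hg1, hi⟩⟩
  have h1 : ((Mn K N).filter (fun g => ∃ i, Sft m (p * g + α i) ∧
        ¬ Squarefree (p * g + α i))).card ≤ k * (3 * Fintype.card K ^ (N - m)) := by
    refine (card_le_card hsub).trans (card_biUnion_le.trans ?_)
    refine (sum_le_sum fun i _ => one_shift (hα i) hm hp (hpa i)).trans ?_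
    rw [sum_const, card_univ, Fintype.card_fin, smul_eq_mul]
  have hq : (0 : ℝ) < (Fintype.card K : ℝ) := by
    exact_mod_cast Fintype.card_pos
  have h2 : (((Mn K N).filter (fun g => ∃ i, Sft m (p * g + α i) ∧
        ¬ Squarefree (p * g + α i))).card : ℝ) ≤ k * (3 * (Fintype.card K : ℝ) ^ (N - m)) := by
    exact_mod_cast h1
  have h3 : (Fintype.card K : ℝ) ^ N / (Fintype.card K : ℝ) ^ m = (Fintype.card K : ℝ) ^ (N - m) := by
    rw [div_eq_iff (by positivity), ← pow_add]
    congr 1
    omega
  have h4 : 4 * (k : ℝ) * (Fintype.card K : ℝ) ^ N / (Fintype.card K : ℝ) ^ m =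
      4 * k * (Fintype.card K : ℝ) ^ (N - m) := by
    rw [mul_div_assoc, h3]
  rw [h4]
  have h5 : (0 : ℝ) ≤ k * (Fintype.card K : ℝ) ^ (N - m) := by positivity
  linarith

end Pool.Agent.H289.E2
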